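import Mathlib
import Pool.Agent.U307.RAD.Stm3

/-!
Project RAD (helper307), package CAR (helper446): the inequality of Carlson.
-/

set_option autoImplicit false

open MeasureTheory Filter Topology Set

namespace Pool.Agent.U446.RAD

open Pool.Agent.U307.RAD

/-- the integral of a Cauchy kernel -/
theorem cauchy (c A q : ℝ) (hq : 0 < q) :
    Integrable (fun y : ℝ => A * (1 + (q * (y - c)) ^ 2)⁻¹) ∧
      ∫ y : ℝ, A * (1 + (q * (y - c)) ^ 2)⁻¹ = Real.pi * (A / q) := by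
  constructor
  · have h1 : Integrable (fun y : ℝ => (1 + (q * y) ^ 2)⁻¹) :=
      integrable_inv_one_add_sq.comp_mul_left' hq.ne'
    have h2 : Integrable (fun y : ℝ => (1 + (q * (y - c)) ^ 2)⁻¹) := h1.comp_sub_right c
    exact h2.const_mul A
  · rw [integral_const_mul]
    have e1 := integral_sub_right_eq_self (μ := volume) (fun y : ℝ => (1 + (q * y) ^ 2)⁻¹) c
    have e2 := Measure.integral_comp_mul_left (fun y : ℝ => (1 + y ^ 2)⁻¹) q
    rw [e1, e2, integral_univ_inv_one_add_sq, abs_of_pos (inv_pos.2 hq), smul_eq_mul]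
    field_simp

theorem point (G w s : ℝ) (hw : 0 < w) (hs : 0 < s) :
    |G| ≤ 1 / 2 * (s * (G ^ 2 * w) + 1 / s * (1 / w)) := by
  have h1 : 1 / 2 * (s * (G ^ 2 * w) + 1 / s * (1 / w)) - |G| =
      (s * w * |G| - 1) ^ 2 / (2 * (s * w)) := by
    rw [← sq_abs G]
    field_simp
    ring
  have h2 : 0 ≤ (s * w * |G| - 1) ^ 2 / (2 * (s * w)) := by positivity
  linarith

theorem t_CAR : S_CAR := by
  intro g c A B hA hB hg h1 h2 h3 h4 h5
  obtain ⟨q, hqdef⟩ : ∃ q : ℝ, q = √(A / B) := ⟨_, rfl⟩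
  have hAB : 0 < A / B := div_pos hA hB
  have hq : 0 < q := by
    rw [hqdef]
    exact Real.sqrt_pos.2 hAB
  have hq2 : q ^ 2 = A / B := by
    rw [hqdef]
    exact Real.sq_sqrt hAB.le
  obtain ⟨D, hDdef⟩ : ∃ D : ℝ, D = A / q := ⟨_, rfl⟩
  have hD : 0 < D := by
    rw [hDdef]
    exact div_pos hA hq
  have hD2 : D ^ 2 = A * B := by
    rw [hDdef, div_pow, hq2]
    field_simp
  obtain ⟨hvi, hv⟩ := cauchy c A q hq
  rw [← hDdef] at hv
  obtain ⟨s, hsdef⟩ : ∃ s : ℝ, s = √(Real.pi * D / 2) := ⟨_, rfl⟩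
  have hs0 : 0 < Real.pi * D / 2 := by positivity
  have hs : 0 < s := by
    rw [hsdef]
    exact Real.sqrt_pos.2 hs0
  have hs2 : s ^ 2 = Real.pi * D / 2 := by
    rw [hsdef]
    exact Real.sq_sqrt hs0.le
  have key : ∀ y : ℝ, |g y| ≤ 1 / 2 * (s * (g y ^ 2 / A + ((y - c) * g y) ^ 2 / B) +
      1 / s * (A * (1 + (q * (y - c)) ^ 2)⁻¹)) := by
    intro y
    have hw : 0 < 1 / A + (y - c) ^ 2 / B := by positivity
    have h := point (g y) (1 / A + (y - c) ^ 2 / B) s hw hs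
    have e1 : g y ^ 2 * (1 / A + (y - c) ^ 2 / B) = g y ^ 2 / A + ((y - c) * g y) ^ 2 / B := by
      ring
    have e2 : 1 / (1 / A + (y - c) ^ 2 / B) = A * (1 + (q * (y - c)) ^ 2)⁻¹ := by
      rw [mul_pow, hq2]
      have h6 : 0 < 1 + A / B * (y - c) ^ 2 := by positivity
      have h7 : 1 / A + (y - c) ^ 2 / B = (1 + A / B * (y - c) ^ 2) / A := by
        field_simp
      rw [h7, one_div_div, div_eq_mul_inv]
    rw [e1, e2] at h
    exact h
  have i1 : IntegrableOn (fun y : ℝ => g y ^ 2 / A) (Ioi 0) := h2.div_const A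
  have i2 : IntegrableOn (fun y : ℝ => ((y - c) * g y) ^ 2 / B) (Ioi 0) := h3.div_const B
  have i3 : IntegrableOn (fun y : ℝ => A * (1 + (q * (y - c)) ^ 2)⁻¹) (Ioi 0) := hvi.integrableOn
  have i4 : IntegrableOn (fun y : ℝ => g y ^ 2 / A + ((y - c) * g y) ^ 2 / B) (Ioi 0) := i1.add i2
  have i5 : IntegrableOn (fun y : ℝ => s * (g y ^ 2 / A + ((y - c) * g y) ^ 2 / B)) (Ioi 0) :=
    i4.const_mul s
  have i6 : IntegrableOn (fun y : ℝ => 1 / s * (A * (1 + (q * (y - c)) ^ 2)⁻¹)) (Ioi 0) :=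
    i3.const_mul (1 / s)
  have i7 : IntegrableOn (fun y : ℝ => 1 / 2 * (s * (g y ^ 2 / A + ((y - c) * g y) ^ 2 / B) +
      1 / s * (A * (1 + (q * (y - c)) ^ 2)⁻¹))) (Ioi 0) := (i5.add i6).const_mul (1 / 2)
  have hI : ∫ y in Ioi (0 : ℝ), |g y| ≤ ∫ y in Ioi (0 : ℝ),
      1 / 2 * (s * (g y ^ 2 / A + ((y - c) * g y) ^ 2 / B) +
        1 / s * (A * (1 + (q * (y - c)) ^ 2)⁻¹)) := setIntegral_mono h1.abs i7 key
  have hJ : ∫ y in Ioi (0 : ℝ), 1 / 2 * (s * (g y ^ 2 / A + ((y - c) * g y) ^ 2 / B) +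
        1 / s * (A * (1 + (q * (y - c)) ^ 2)⁻¹)) =
      1 / 2 * (s * ((∫ y in Ioi (0 : ℝ), g y ^ 2) / A +
        (∫ y in Ioi (0 : ℝ), ((y - c) * g y) ^ 2) / B) +
        1 / s * ∫ y in Ioi (0 : ℝ), A * (1 + (q * (y - c)) ^ 2)⁻¹) := by
    rw [integral_const_mul, integral_add i5 i6, integral_const_mul, integral_add i1 i2,
      integral_div, integral_div, integral_const_mul]
  have hV : ∫ y in Ioi (0 : ℝ), A * (1 + (q * (y - c)) ^ 2)⁻¹ ≤ Real.pi * D := by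
    rw [← hv]
    refine setIntegral_le_integral hvi (Filter.Eventually.of_forall fun y => ?_)
    change 0 ≤ A * (1 + (q * (y - c)) ^ 2)⁻¹
    positivity
  have hX : (∫ y in Ioi (0 : ℝ), g y ^ 2) / A ≤ 1 := by
    rw [div_le_one hA]
    exact h4
  have hY : (∫ y in Ioi (0 : ℝ), ((y - c) * g y) ^ 2) / B ≤ 1 := by
    rw [div_le_one hB]
    exact h5
  have hI0 : 0 ≤ ∫ y in Ioi (0 : ℝ), |g y| :=
    integral_nonneg fun y => abs_nonneg _
  rw [hJ] at hI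
  have hK : ∫ y in Ioi (0 : ℝ), |g y| ≤ 2 * s := by
    have a1 : s * ((∫ y in Ioi (0 : ℝ), g y ^ 2) / A +
        (∫ y in Ioi (0 : ℝ), ((y - c) * g y) ^ 2) / B) ≤ s * 2 :=
      mul_le_mul_of_nonneg_left (by linarith) hs.le
    have a2 : 1 / s * ∫ y in Ioi (0 : ℝ), A * (1 + (q * (y - c)) ^ 2)⁻¹ ≤
        1 / s * (Real.pi * D) := mul_le_mul_of_nonneg_left hV (by positivity)
    have a3 : 1 / s * (Real.pi * D) = 2 * s := by
      have : Real.pi * D = 2 * s ^ 2 := by rw [hs2]; ring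
      rw [this]
      field_simp
    linarith
  calc (∫ y in Ioi (0 : ℝ), |g y|) ^ 4 ≤ (2 * s) ^ 4 := pow_le_pow_left₀ hI0 hK 4
    _ = 16 * (s ^ 2) ^ 2 := by ring
    _ = 4 * Real.pi ^ 2 * D ^ 2 := by rw [hs2]; ring
    _ = 4 * Real.pi ^ 2 * (A * B) := by rw [hD2]

end Pool.Agent.U446.RAD
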